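import Pool.Agent.Run7.h358.PL.Iface
import Pool.Agent.Run7.h358.A1.Om
import Pool.Agent.Run7.h358.U2.Fn

set_option autoImplicit false
set_option linter.unusedSectionVars false

/-!
# Stably nondegenerate abelian varieties of type `A_1`: assembly
-/

open Module Matrix TensorProduct

noncomputable section

namespace Pool.Agent.Run7.h358.PL

open Pool.Agent.N208.LC (Kil PrB)

theorem fft (hPI : S_PI) (hBAS : S_BAS) (hQF : S_QF) (hBRG : S_BRG)
    {V : Type} [AddCommGroup V] [Module ℂ V] [FiniteDimensional ℂ V]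
    {ω : V →ₗ[ℂ] V →ₗ[ℂ] ℂ} {E B : Submodule ℂ (Module.End ℂ V)} {n : ℕ}
    {φ : Fin n → Matrix (Fin 2) (Fin 2) ℂ →ₗ[ℂ] Module.End ℂ V} (h : Planar ω E B φ)
    {ι : Type} [Fintype ι] [DecidableEq ι] {m : ℕ} (hc : Fintype.card ι = 2 * m)
    (ψ : MultilinearMap ℂ (fun _ : ι => V) ℂ) (hψ : ∀ X ∈ B, Sk ω X → Kil X ψ) :
    ψ ∈ Submodule.span ℂ (PrB ι m {β | ∃ Q ∈ E, ∀ u v, β u v = ω u (Q v)}) := by
  obtain ⟨X, iX, iX', bar, π, χ, hI⟩ := hPI V ω E B h.alg
  obtain ⟨T, U, iT, iT', iU, iU', cT, cU, e, he⟩ := hBAS V ω E B n φ h X bar π χ hI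
  refine Submodule.span_mono ?_ (hBRG V X T U ι bar cT cU e m hI.bar_bar he.nofix hc ψ
    (fun x a ha => hψ _ (he.skM x a ha).1 (he.skM x a ha).2)
    (fun x => hψ _ (he.skT x).1 (he.skT x).2) (fun x => hψ _ (he.skU x).1 (he.skU x).2))
  rintro _ ⟨ε, c, hc', hψ'⟩
  refine ⟨ε, c, fun i => ?_, hψ'⟩
  obtain ⟨δ, hδ, hb⟩ := hc' i
  exact hQF V ω E B n φ h X bar π χ hI T U cT cU e he (c i) δ hδ hb

/-! ### Abelian varieties -/

open Pool.Agent.Y102 Pool.Agent.W516.DR Pool.Agent.H204R3.GP Pool.Agent.W516.KC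
  Pool.Agent.H204R3.SP Pool.Agent.TH119.MX Pool.Agent.R917 Pool.Agent.N208.AM Pool.Agent.N208.AD
  Pool.Agent.N208.BT Pool.Agent.N208.LC Pool.Agent.R917.DT Pool.Agent.N492.LCAP1

section One

variable {g : ℕ} {A : AbVar g}

/-- All skew elements of the commutant are in the Lie algebra of the de Rham-Betti object. -/
def HS (A : AbVar g) : Prop :=
  ∀ T ∈ CB A, (∀ u v, A.om (T u) v + A.om u (T v) = 0) → T ∈ A.LA

/-- the complexified form -/
abbrev omC (A : AbVar g) : (ℂ ⊗[ℚ] A.H1) →ₗ[ℂ] (ℂ ⊗[ℚ] A.H1) →ₗ[ℂ] ℂ :=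
  LinearMap.BilinForm.baseChange ℂ A.om

theorem cmp_skew {X : Module.End ℂ (ℂ ⊗[ℚ] A.H1)} (hs : Sk (omC A) X) (lam : ℂ →ₗ[ℚ] ℚ)
    (u v : A.H1) : A.om (cmpE lam X u) v + A.om u (cmpE lam X v) = 0 := by
  have h5 : ∀ (Y : ℂ ⊗[ℚ] A.H1) (v : A.H1),
      lam (LinearMap.BilinForm.baseChange ℂ A.om Y (1 ⊗ₜ[ℚ] v)) = A.om (cmp lam Y) v := by
    intro Y v
    induction Y using TensorProduct.induction_on with
    | zero => simp
    | add a b ha hb => simp only [map_add, LinearMap.add_apply, ha, hb]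
    | tmul a w =>
      rw [LinearMap.BilinForm.baseChange_tmul, cmp_tmul, mul_one, map_smul, map_smul,
        LinearMap.smul_apply, smul_eq_mul, smul_eq_mul, mul_comm]
  have h6 : ∀ (Y : ℂ ⊗[ℚ] A.H1) (u : A.H1),
      lam (LinearMap.BilinForm.baseChange ℂ A.om (1 ⊗ₜ[ℚ] u) Y) = A.om u (cmp lam Y) := by
    intro Y u
    induction Y using TensorProduct.induction_on with
    | zero => simp
    | add a b ha hb => simp only [map_add, ha, hb]
    | tmul a w =>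
      rw [LinearMap.BilinForm.baseChange_tmul, cmp_tmul, one_mul, map_smul, map_smul,
        smul_eq_mul, smul_eq_mul, mul_comm]
  rw [cmpE_apply, cmpE_apply, ← h5, ← h6, ← map_add]
  have h7 := hs (1 ⊗ₜ[ℚ] u) (1 ⊗ₜ[ℚ] v)
  change omC A (X (1 ⊗ₜ[ℚ] u)) (1 ⊗ₜ[ℚ] v) + omC A (1 ⊗ₜ[ℚ] u) (X (1 ⊗ₜ[ℚ] v)) = 0 at h7
  change lam (omC A (X (1 ⊗ₜ[ℚ] u)) (1 ⊗ₜ[ℚ] v) + omC A (1 ⊗ₜ[ℚ] u) (X (1 ⊗ₜ[ℚ] v))) = 0
  rw [h7, map_zero]

theorem HS.memc (h : HS A) {X : Module.End ℂ (ℂ ⊗[ℚ] A.H1)} (hX : X ∈ cx (CB A))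
    (hs : Sk (omC A) X) : X ∈ cx A.LA :=
  end_mem_span (fun P => P ∈ A.LA) X fun lam =>
    h _ (cmp_of_ext (CB A) hX lam) (cmp_skew hs lam)

theorem LA_CB {X : Module.End ℂ (ℂ ⊗[ℚ] A.H1)} (hX : X ∈ cx A.LA) : X ∈ cx (CB A) :=
  cx_mono LA_le_CB hX

theorem LA_sk {X : Module.End ℂ (ℂ ⊗[ℚ] A.H1)} (hX : X ∈ cx A.LA) : Sk (omC A) X := by
  intro u v
  induction hX using Submodule.span_induction with
  | mem X hX =>
    obtain ⟨P, hP, rfl⟩ := hX
    have h1 := cx_skew (A := A) (A.LA_skew hP) u v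
    change omC A (P.baseChange ℂ u) v = -omC A u (P.baseChange ℂ v) at h1
    rw [h1, neg_add_cancel]
  | zero => simp
  | add a b _ _ ha hb =>
    simp only [LinearMap.add_apply, map_add]
    linear_combination ha + hb
  | smul c a _ ha =>
    simp only [LinearMap.smul_apply, map_smul, smul_eq_mul]
    linear_combination c * ha

theorem mem_cx_EA {T : Module.End ℂ (ℂ ⊗[ℚ] A.H1)} (hT : ∀ X ∈ cx A.LA, T * X = X * T) :
    T ∈ cx A.EA := by
  refine end_mem_span _ T fun lam => ?_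
  intro X hX
  exact (((comm_iff X T).2 (hT _ (bc_mem hX))) lam).symm

theorem HS.na (h : HS A) : A.NA ≤ A.LA := fun X hX =>
  h X (fun P hP => A.NA_comm hX hP) (fun u v => A.NA_skew hX u v)

theorem alg0 (A : AbVar g) : Alg0 (omC A) (cx A.EA) (cx (CB A)) where
  commB := cx_commutant fun X => Iff.rfl
  commE := fun Q => by
    have h1 := cx_commutant (S := CB A) (C := A.EA) (fun P => mem_EA_iff P) Q
    rw [h1]
    exact ⟨fun h X hX => (h X hX).symm, fun h X hX => (h X hX).symm⟩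
  semi := fun U hU => cx_semi U hU
  alt := cx_alt _ om_one
  nondeg := cx_nondeg
  adjB := cx_adj _ om_one

/-- The invariants are zero. -/
theorem HS.inv (h : HS A) (v : ℂ ⊗[ℚ] A.H1) (hv : ∀ X ∈ cx (CB A), Sk (omC A) X → X v = 0) :
    v = 0 := by
  have h1 : matE (2 * g) (A1.cR (A1.JM A)) ∈ cx A.NA := by
    rw [← A1.mem_QM, ← A1.MM_VR]
    exact A1.cR_mem (A1.JM_mem A)
  have h2 : matE (2 * g) (A1.cR (A1.JM A)) ∈ cx A.LA := cx_mono h.na h1
  have h3 := hv _ (LA_CB h2) (LA_sk h2)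
  have h4 : matE (2 * g) (A1.cR (A1.JM A)) * matE (2 * g) (A1.cR (A1.JM A)) = -1 := by
    rw [← map_mul, ← A1.cR_mul, A1.JM_sq]
    have h5 : A1.cR (-1 : A1.MR (2 * g)) = -1 := by
      ext i j
      simp [A1.cR, Matrix.one_apply]
      split_ifs <;> simp
    rw [h5, map_neg, map_one]
  have h5 := congrArg (fun T : Module.End ℂ (ℂ ⊗[ℚ] A.H1) => T v) h4
  change matE (2 * g) (A1.cR (A1.JM A)) (matE (2 * g) (A1.cR (A1.JM A)) v) = -v at h5
  rw [h3, map_zero] at h5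
  exact neg_eq_zero.1 h5.symm

end One

section Two

variable {g g' : ℕ} {A : AbVar g} {C : AbVar g'} {f : A.H1 →ₗ[ℚ] C.H1} {p : C.H1 →ₗ[ℚ] A.H1}

/-- The restriction of complex endomorphisms to the factor. -/
def rsC (f : A.H1 →ₗ[ℚ] C.H1) (p : C.H1 →ₗ[ℚ] A.H1) :
    Module.End ℂ (ℂ ⊗[ℚ] C.H1) →ₗ[ℂ] Module.End ℂ (ℂ ⊗[ℚ] A.H1) where
  toFun Y := (p.baseChange ℂ).comp (Y.comp (f.baseChange ℂ))
  map_add' Y Z := by rw [LinearMap.add_comp, LinearMap.comp_add]
  map_smul' c Y := by rw [LinearMap.smul_comp, LinearMap.comp_smul]; rfl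

theorem rsC_apply (Y : Module.End ℂ (ℂ ⊗[ℚ] C.H1)) (v : ℂ ⊗[ℚ] A.H1) :
    rsC f p Y v = p.baseChange ℂ (Y (f.baseChange ℂ v)) := rfl

theorem rsC_bc (Y : Module.End ℚ C.H1) :
    rsC f p (Y.baseChange ℂ) = (rs f p Y).baseChange ℂ := by
  refine LinearMap.ext fun v => ?_
  rw [rsC_apply]
  induction v using TensorProduct.induction_on with
  | zero => simp only [map_zero]
  | add a b ha hb => simp only [map_add, ha, hb]
  | tmul a w => simp only [LinearMap.baseChange_tmul, rs_apply]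

/-- The endomorphisms which preserve the factor. -/
def Fix (f : A.H1 →ₗ[ℚ] C.H1) (p : C.H1 →ₗ[ℚ] A.H1) (Y : Module.End ℂ (ℂ ⊗[ℚ] C.H1)) : Prop :=
  ∀ v, f.baseChange ℂ (p.baseChange ℂ (Y (f.baseChange ℂ v))) = Y (f.baseChange ℂ v)

theorem Fix.mul (h : DT.Fac A C f p) {Y Z : Module.End ℂ (ℂ ⊗[ℚ] C.H1)} (hY : Fix f p Y)
    (hZ : Fix f p Z) : Fix f p (Y * Z) := by
  intro v
  rw [Module.End.mul_apply, ← hZ v, hY]

theorem Fix.add {Y Z : Module.End ℂ (ℂ ⊗[ℚ] C.H1)} (hY : Fix f p Y)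
    (hZ : Fix f p Z) : Fix f p (Y + Z) := by
  intro v
  rw [LinearMap.add_apply, map_add, map_add, hY, hZ]

theorem Fix.smul {Y : Module.End ℂ (ℂ ⊗[ℚ] C.H1)} (c : ℂ) (hY : Fix f p Y) :
    Fix f p (c • Y) := by
  intro v
  rw [LinearMap.smul_apply, map_smul, map_smul, hY]

theorem Fix.neg {Y : Module.End ℂ (ℂ ⊗[ℚ] C.H1)} (hY : Fix f p Y) : Fix f p (-Y) := by
  intro v
  rw [LinearMap.neg_apply, map_neg, map_neg, hY]

theorem Fix.of_mem (h : DT.Fac A C f p) {Y : Module.End ℂ (ℂ ⊗[ℚ] C.H1)} (hY : Y ∈ cx C.NA) :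
    Fix f p Y := by
  induction hY using Submodule.span_induction with
  | mem Y hY =>
    obtain ⟨P, hP, rfl⟩ := hY
    intro v
    induction v using TensorProduct.induction_on with
    | zero => simp only [map_zero]
    | add a b ha hb => simp only [map_add, ha, hb]
    | tmul a w =>
      simp only [LinearMap.baseChange_tmul]
      rw [h.fix hP]
  | zero => intro v; simp
  | add a b _ _ ha hb => exact ha.add hb
  | smul c a _ ha => exact ha.smul c

theorem rsC_mul {Y Z : Module.End ℂ (ℂ ⊗[ℚ] C.H1)} (hZ : Fix f p Z) :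
    rsC f p (Y * Z) = rsC f p Y * rsC f p Z := by
  refine LinearMap.ext fun v => ?_
  rw [Module.End.mul_apply, rsC_apply, rsC_apply, rsC_apply, Module.End.mul_apply, hZ v]

theorem rsC_mem (h : DT.Fac A C f p) {Y : Module.End ℂ (ℂ ⊗[ℚ] C.H1)} (hY : Y ∈ cx C.NA) :
    rsC f p Y ∈ cx A.NA := by
  induction hY using Submodule.span_induction with
  | mem Y hY =>
    obtain ⟨P, hP, rfl⟩ := hY
    rw [rsC_bc]
    exact bc_mem (h.rs_NA hP)
  | zero => rw [map_zero]; exact Submodule.zero_mem _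
  | add a b _ _ ha hb => rw [map_add]; exact Submodule.add_mem _ ha hb
  | smul c a _ ha => rw [map_smul]; exact Submodule.smul_mem _ _ ha

/-- All elements of the Lie algebra of the factor are restrictions. -/
theorem exists_lift (hl : ∀ T ∈ A.LA, ∃ Y ∈ C.NA, ∀ v, p (Y (f v)) = T v)
    {X : Module.End ℂ (ℂ ⊗[ℚ] A.H1)} (hX : X ∈ cx A.LA) : ∃ Y ∈ cx C.NA, rsC f p Y = X := by
  induction hX using Submodule.span_induction with
  | mem X hX =>
    obtain ⟨T, hT, rfl⟩ := hX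
    obtain ⟨Y, hY, hYT⟩ := hl T hT
    refine ⟨Y.baseChange ℂ, bc_mem hY, ?_⟩
    rw [rsC_bc]
    congr 1
    exact LinearMap.ext hYT
  | zero => exact ⟨0, Submodule.zero_mem _, map_zero _⟩
  | add a b _ _ ha hb =>
    obtain ⟨Y, hY, h1⟩ := ha
    obtain ⟨Z, hZ, h2⟩ := hb
    exact ⟨Y + Z, Submodule.add_mem _ hY hZ, by rw [map_add, h1, h2]⟩
  | smul c a _ ha =>
    obtain ⟨Y, hY, h1⟩ := ha
    exact ⟨c • Y, Submodule.smul_mem _ c hY, by rw [map_smul, h1]⟩

variable {n : ℕ} {φ : Fin n → TA.S →ₗ[ℂ] A1.MC (2 * g')}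

/-- The factors, acting on the homology of the factor `A`. -/
def phi (f : A.H1 →ₗ[ℚ] C.H1) (p : C.H1 →ₗ[ℚ] A.H1) (φ : Fin n → TA.S →ₗ[ℂ] A1.MC (2 * g'))
    (i : Fin n) : Matrix (Fin 2) (Fin 2) ℂ →ₗ[ℂ] Module.End ℂ (ℂ ⊗[ℚ] A.H1) :=
  (rsC f p).comp ((matE (2 * g')).toLinearMap.comp (φ i))

theorem phi_apply (i : Fin n) (a : Matrix (Fin 2) (Fin 2) ℂ) :
    phi f p φ i a = rsC f p (matE (2 * g') (φ i a)) := rfl

/-- The diagonal matrix `(1, -1)`. -/
def mH : Matrix (Fin 2) (Fin 2) ℂ := !![1, 0; 0, -1]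

theorem mH_sq : mH * mH = 1 := by
  ext i j
  fin_cases i <;> fin_cases j <;> simp [mH, Matrix.mul_apply, Fin.sum_univ_two]

theorem mH_tr : mH.trace = 0 := by simp [mH, Matrix.trace, Fin.sum_univ_two]

section Typ

variable (ht : A1.TypeA0 φ (A1.QM C.NA)) (h : DT.Fac A C f p)
include ht

theorem phi_mem (i : Fin n) {x : Matrix (Fin 2) (Fin 2) ℂ} (hx : x.trace = 0) :
    matE (2 * g') (φ i x) ∈ cx C.NA := A1.mem_QM.1 (ht.mem i x hx)

include h

theorem phi_fix (i : Fin n) (a : Matrix (Fin 2) (Fin 2) ℂ) :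
    Fix f p (matE (2 * g') (φ i a)) := by
  have h1 : Fix f p (matE (2 * g') (φ i 1)) := by
    rw [← mH_sq, ht.mul, map_mul]
    exact (Fix.of_mem h (phi_mem ht i mH_tr)).mul h (Fix.of_mem h (phi_mem ht i mH_tr))
  have h2 : a = (a - (a.trace / 2) • 1) + (a.trace / 2) • 1 := by rw [sub_add_cancel]
  rw [h2, map_add, map_add, map_smul, map_smul]
  refine (Fix.of_mem h (phi_mem ht i ?_)).add (h1.smul _)
  rw [Matrix.trace_sub, Matrix.trace_smul, Matrix.trace_one, Fintype.card_fin, smul_eq_mul]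
  push_cast
  ring

theorem phi_mul (i : Fin n) (a b : Matrix (Fin 2) (Fin 2) ℂ) :
    phi f p φ i (a * b) = phi f p φ i a * phi f p φ i b := by
  rw [phi_apply, phi_apply, phi_apply, ht.mul, map_mul, rsC_mul (phi_fix ht h i b)]

theorem phi_comm {i k : Fin n} (hik : i ≠ k) (a b : Matrix (Fin 2) (Fin 2) ℂ) :
    phi f p φ i a * phi f p φ k b = phi f p φ k b * phi f p φ i a := by
  rw [phi_apply, phi_apply, ← rsC_mul (phi_fix ht h k b), ← rsC_mul (phi_fix ht h i a),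
    ← map_mul, ← map_mul, ht.comm i k hik]

theorem phi_NA (i : Fin n) {x : Matrix (Fin 2) (Fin 2) ℂ} (hx : x.trace = 0) :
    phi f p φ i x ∈ cx A.NA := rsC_mem h (phi_mem ht i hx)

theorem rsC_NA_comm {Y Z : Module.End ℂ (ℂ ⊗[ℚ] C.H1)} (hY : Fix f p Y) (hZ : Fix f p Z)
    (hYZ : Y * Z = Z * Y) : rsC f p Y * rsC f p Z = rsC f p Z * rsC f p Y := by
  rw [← rsC_mul hZ, ← rsC_mul hY, hYZ]

/-- The decomposition. -/
theorem phi_gen (hl : ∀ T ∈ A.LA, ∃ Y ∈ C.NA, ∀ v, p (Y (f v)) = T v)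
    {X : Module.End ℂ (ℂ ⊗[ℚ] A.H1)} (hX : X ∈ cx A.LA) :
    ∃ x : Fin n → Matrix (Fin 2) (Fin 2) ℂ, (∀ i, (x i).trace = 0) ∧
      X - ∑ i, phi f p φ i (x i) ∈ cx A.EA := by
  obtain ⟨Y, hY, rfl⟩ := exists_lift hl hX
  obtain ⟨x, hx, hcen⟩ := ht.dec ((matE (2 * g')).symm Y) (by
    rw [A1.mem_QM, AlgEquiv.apply_symm_apply]; exact hY)
  refine ⟨x, hx, mem_cx_EA fun T hT => ?_⟩
  obtain ⟨Z, hZ, rfl⟩ := exists_lift hl hT
  have h1 : rsC f p Y - ∑ i, phi f p φ i (x i) =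
      rsC f p (matE (2 * g') ((matE (2 * g')).symm Y - ∑ i, φ i (x i))) := by
    rw [map_sub, map_sub, AlgEquiv.apply_symm_apply, map_sum, map_sum]
    rfl
  have h2 : Fix f p (matE (2 * g') ((matE (2 * g')).symm Y - ∑ i, φ i (x i))) := by
    rw [map_sub, AlgEquiv.apply_symm_apply, map_sum, sub_eq_add_neg]
    refine (Fix.of_mem h hY).add ?_
    exact Fix.neg (Fix.of_mem h (Submodule.sum_mem _ fun i _ => phi_mem ht i (hx i)))
  rw [h1]
  refine rsC_NA_comm ht h h2 (Fix.of_mem h hZ) ?_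
  have h3 := hcen ((matE (2 * g')).symm Z) (by
    rw [A1.mem_QM, AlgEquiv.apply_symm_apply]; exact hZ)
  have h4 := congrArg (matE (2 * g')) h3
  rw [map_mul, map_mul, AlgEquiv.apply_symm_apply] at h4
  exact h4

end Typ

/-! ### Planes -/

/-- The squares of the elements of the derived algebra are in the centre. -/
def HP (A : AbVar g) : Prop := ∀ X ∈ Y102.der A.LA, ∀ Y ∈ A.LA, X * X * Y = Y * (X * X)

theorem HP.pol (h : HP A) {X X' Y : Module.End ℚ A.H1} (hX : X ∈ Y102.der A.LA)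
    (hX' : X' ∈ Y102.der A.LA) (hY : Y ∈ A.LA) : (X * X' + X' * X) * Y = Y * (X * X' + X' * X) := by
  have h1 := h (X + X') (Submodule.add_mem _ hX hX') Y hY
  have h2 := h X hX Y hY
  have h3 := h X' hX' Y hY
  have h4 : X * X' + X' * X = (X + X') * (X + X') - X * X - X' * X' := by noncomm_ring
  rw [h4, sub_mul, sub_mul, mul_sub, mul_sub, h1, h2, h3]

theorem HP.polc (h : HP A) {X X' Y : Module.End ℂ (ℂ ⊗[ℚ] A.H1)} (hX : X ∈ cx (Y102.der A.LA))
    (hX' : X' ∈ cx (Y102.der A.LA)) (hY : Y ∈ cx A.LA) :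
    (X * X' + X' * X) * Y = Y * (X * X' + X' * X) := by
  induction hX using Submodule.span_induction with
  | mem X hX =>
    obtain ⟨X, hX, rfl⟩ := hX
    induction hX' using Submodule.span_induction with
    | mem X' hX' =>
      obtain ⟨X', hX', rfl⟩ := hX'
      have h1 : X.baseChange ℂ * X'.baseChange ℂ + X'.baseChange ℂ * X.baseChange ℂ =
          (X * X' + X' * X).baseChange ℂ := by
        rw [LinearMap.baseChange_add, bc_mul, bc_mul]
      rw [h1]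
      induction hY using Submodule.span_induction with
      | mem Y hY =>
        obtain ⟨Y, hY, rfl⟩ := hY
        rw [← bc_mul, ← bc_mul, h.pol hX hX' hY]
      | zero => rw [mul_zero, zero_mul]
      | add a b _ _ ha hb => rw [mul_add, add_mul, ha, hb]
      | smul c a _ ha => rw [mul_smul_comm, smul_mul_assoc, ha]
    | zero => rw [mul_zero, zero_mul, add_zero, zero_mul, mul_zero]
    | add a b _ _ ha hb =>
      have e1 : X.baseChange ℂ * (a + b) + (a + b) * X.baseChange ℂ =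
          (X.baseChange ℂ * a + a * X.baseChange ℂ) + (X.baseChange ℂ * b + b * X.baseChange ℂ) := by
        rw [mul_add, add_mul]; abel
      rw [e1, mul_add, add_mul, ha, hb]
    | smul c a _ ha =>
      have e1 : X.baseChange ℂ * (c • a) + (c • a) * X.baseChange ℂ =
          c • (X.baseChange ℂ * a + a * X.baseChange ℂ) := by
        rw [mul_smul_comm, smul_mul_assoc, smul_add]
      rw [e1, mul_smul_comm, smul_mul_assoc, ha]
  | zero => rw [mul_zero, zero_mul, add_zero, zero_mul, mul_zero]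
  | add a b _ _ ha hb =>
    have e1 : (a + b) * X' + X' * (a + b) = (a * X' + X' * a) + (b * X' + X' * b) := by
      rw [mul_add, add_mul]; abel
    rw [e1, mul_add, add_mul, ha, hb]
  | smul c a _ ha =>
    have e1 : (c • a) * X' + X' * (c • a) = c • (a * X' + X' * a) := by
      rw [mul_smul_comm, smul_mul_assoc, smul_add]
    rw [e1, mul_smul_comm, smul_mul_assoc, ha]

def mE : Matrix (Fin 2) (Fin 2) ℂ := !![0, 1; 0, 0]
def mF : Matrix (Fin 2) (Fin 2) ℂ := !![0, 0; 1, 0]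

theorem mE_tr : mE.trace = 0 := by simp [mE, Matrix.trace, Fin.sum_univ_two]
theorem mF_tr : mF.trace = 0 := by simp [mF, Matrix.trace, Fin.sum_univ_two]

theorem mHE : mH * mE - mE * mH = (2 : ℂ) • mE := by
  ext i j
  fin_cases i <;> fin_cases j <;>
    simp [mH, mE, Matrix.mul_apply, Fin.sum_univ_two] <;> norm_num

theorem mHF : mH * mF - mF * mH = (-2 : ℂ) • mF := by
  ext i j
  fin_cases i <;> fin_cases j <;>
    simp [mH, mF, Matrix.mul_apply, Fin.sum_univ_two] <;> norm_num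

theorem mEF : mE * mF - mF * mE = mH := by
  ext i j
  fin_cases i <;> fin_cases j <;> simp [mH, mE, mF, Matrix.mul_apply, Fin.sum_univ_two]

theorem mEF_one : mE * mF + mF * mE = 1 := by
  ext i j
  fin_cases i <;> fin_cases j <;> simp [mE, mF, Matrix.mul_apply, Fin.sum_univ_two]

theorem tz_eq {x : Matrix (Fin 2) (Fin 2) ℂ} (hx : x.trace = 0) :
    x = x 0 0 • mH + x 0 1 • mE + x 1 0 • mF := by
  have h1 : x 1 1 = -x 0 0 := by
    rw [Matrix.trace, Fin.sum_univ_two] at hx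
    exact (neg_eq_of_add_eq_zero_right hx).symm
  ext i j
  fin_cases i <;> fin_cases j <;> simp [mH, mE, mF, h1]

section Pln

variable (ht : A1.TypeA0 φ (A1.QM C.NA)) (h : DT.Fac A C f p) (hNL : A.NA ≤ A.LA)
include ht h hNL

theorem phi_LA (i : Fin n) {x : Matrix (Fin 2) (Fin 2) ℂ} (hx : x.trace = 0) :
    phi f p φ i x ∈ cx A.LA := cx_mono hNL (phi_NA ht h i hx)

theorem phi_der (i : Fin n) {x : Matrix (Fin 2) (Fin 2) ℂ} (hx : x.trace = 0) :
    phi f p φ i x ∈ cx (Y102.der A.LA) := by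
  have key : ∀ a b : Matrix (Fin 2) (Fin 2) ℂ, a.trace = 0 → b.trace = 0 →
      phi f p φ i (a * b - b * a) ∈ cx (Y102.der A.LA) := by
    intro a b ha hb
    rw [map_sub, phi_mul ht h, phi_mul ht h]
    refine cx_br (S := A.LA) (fun X hX Y hY => ?_) _ (phi_LA ht h hNL i ha) _
      (phi_LA ht h hNL i hb)
    rw [← bc_br]
    exact bc_mem (Submodule.subset_span ⟨X, hX, Y, hY, rfl⟩)
  have h1 := key mH mE mH_tr mE_tr
  have h2 := key mH mF mH_tr mF_tr
  have h3 := key mE mF mE_tr mF_tr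
  rw [mHE, map_smul] at h1
  rw [mHF, map_smul] at h2
  rw [mEF] at h3
  have h1' := Submodule.smul_mem _ (2 : ℂ)⁻¹ h1
  rw [smul_smul, inv_mul_cancel₀ (two_ne_zero), one_smul] at h1'
  have h2' := Submodule.smul_mem _ (-2 : ℂ)⁻¹ h2
  rw [smul_smul, inv_mul_cancel₀ (neg_ne_zero.2 two_ne_zero), one_smul] at h2'
  rw [tz_eq hx, map_add, map_add, map_smul, map_smul, map_smul]
  exact Submodule.add_mem _ (Submodule.add_mem _ (Submodule.smul_mem _ _ h3)
    (Submodule.smul_mem _ _ h1')) (Submodule.smul_mem _ _ h2')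

theorem phi_orth0 (hP : HP A) {i k : Fin n} (hik : i ≠ k) {x : Matrix (Fin 2) (Fin 2) ℂ}
    (hx : x.trace = 0) {y : Matrix (Fin 2) (Fin 2) ℂ} (hy : y.trace = 0) {c : ℂ} (hc : c ≠ 0)
    (hyc : mH * y - y * mH = c • y) : phi f p φ i y * phi f p φ k x = 0 := by
  have h1 := hP.polc (phi_der ht h hNL i mH_tr) (phi_der ht h hNL k hx) (phi_LA ht h hNL i hy)
  have e1 : phi f p φ i mH * phi f p φ k x = phi f p φ k x * phi f p φ i mH :=
    phi_comm ht h hik _ _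
  have e2 : phi f p φ i y * phi f p φ k x = phi f p φ k x * phi f p φ i y :=
    phi_comm ht h hik _ _
  have e3 : phi f p φ i mH * phi f p φ i y - phi f p φ i y * phi f p φ i mH =
      c • phi f p φ i y := by
    rw [← phi_mul ht h, ← phi_mul ht h, ← map_sub, hyc, map_smul]
  have h2 : (2 * c) • (phi f p φ i y * phi f p φ k x) = 0 := by
    have h3 : (2 * c) • (phi f p φ i y * phi f p φ k x) =
        (phi f p φ i mH * phi f p φ k x + phi f p φ k x * phi f p φ i mH) * phi f p φ i y -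
          phi f p φ i y *
            (phi f p φ i mH * phi f p φ k x + phi f p φ k x * phi f p φ i mH) := by
      rw [← e1, ← two_mul, mul_assoc, mul_assoc, ← e2]
      have h4 : phi f p φ i y * (2 * (phi f p φ i mH * phi f p φ k x)) =
          2 * (phi f p φ i y * phi f p φ i mH * phi f p φ k x) := by
        rw [mul_assoc]
        noncomm_ring
      rw [h4, ← mul_sub, ← mul_assoc, ← sub_mul, e3, smul_mul_assoc, mul_smul_comm, mul_comm 2 c,
        mul_smul]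
      congr 1
      rw [ofNat_smul_eq_nsmul ℂ 2, nsmul_eq_mul]
      rfl
    rw [h3, h1, sub_self]
  exact (smul_eq_zero.1 h2).resolve_left (mul_ne_zero two_ne_zero hc)

theorem phi_orth (hP : HP A) {i k : Fin n} (hik : i ≠ k) (a b : Matrix (Fin 2) (Fin 2) ℂ) :
    phi f p φ i a * phi f p φ k b = 0 := by
  have h1 : ∀ x : Matrix (Fin 2) (Fin 2) ℂ, x.trace = 0 →
      phi f p φ i 1 * phi f p φ k x = 0 := by
    intro x hx
    have e1 := phi_orth0 ht h hNL hP hik hx mE_tr (c := 2) two_ne_zero mHE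
    have e2 := phi_orth0 ht h hNL hP hik hx mF_tr (c := -2) (neg_ne_zero.2 two_ne_zero) mHF
    rw [← mEF_one, map_add, phi_mul ht h, phi_mul ht h, add_mul, mul_assoc, mul_assoc, e1, e2,
      mul_zero, mul_zero, add_zero]
  have h2 : phi f p φ k b = phi f p φ k mH * phi f p φ k (mH * b) := by
    rw [← phi_mul ht h, ← mul_assoc, mH_sq, one_mul]
  have h3 : phi f p φ i a = phi f p φ i a * phi f p φ i 1 := by
    rw [← phi_mul ht h, mul_one]
  rw [h2, h3, ← mul_assoc, mul_assoc (phi f p φ i a), h1 _ mH_tr, mul_zero, zero_mul]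

end Pln

theorem planar (ht : A1.TypeA0 φ (A1.QM C.NA)) (h : DT.Fac A C f p) (hS : HS A) (hP : HP A)
    (hl : ∀ T ∈ A.LA, ∃ Y ∈ C.NA, ∀ v, p (Y (f v)) = T v) :
    Planar (omC A) (cx A.EA) (cx (CB A)) (phi f p φ) where
  alg := alg0 A
  com := fun Q hQ => mem_cx_EA fun X hX => (hQ X (LA_CB hX) (LA_sk hX)).symm
  inv := hS.inv
  mul := phi_mul ht h
  orth := fun i k hik a b => phi_orth ht h hS.na hP hik a b
  sl := fun i x hx => ⟨LA_CB (phi_LA ht h hS.na i hx), LA_sk (phi_LA ht h hS.na i hx)⟩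
  gen := fun X hX hs => phi_gen ht h hl (hS.memc hX hs)

end Two

section Fin

variable {g g' : ℕ} {A : AbVar g} {C : AbVar g'} {f : A.H1 →ₗ[ℚ] C.H1} {p : C.H1 →ₗ[ℚ] A.H1}

/-- **de Rham-Betti classes of all degrees**. -/
theorem fin_all (hPI : S_PI) (hBAS : S_BAS) (hQF : S_QF) (hBRG : S_BRG) {n : ℕ}
    {φ : Fin n → TA.S →ₗ[ℂ] A1.MC (2 * g')}
    (ht : A1.TypeA0 φ (A1.QM C.NA)) (h : DT.Fac A C f p) (hS : HS A) (hP : HP A)
    (hl : ∀ T ∈ A.LA, ∃ Y ∈ C.NA, ∀ v, p (Y (f v)) = T v) {m : ℕ}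
    {ψ : MultilinearMap ℚ (fun _ : Fin m × Fin 2 => A.H1) ℚ}
    (hψ : IsDeRhamBettiForm QBar A.dR tau m ψ) :
    ψ ∈ Submodule.span ℚ {ψ | IsProductOfHodgeBilinear (A.per : A.H1 →+ (Fin g → ℂ)) ψ} := by
  refine Submodule.span_mono (fun _ h => prB_hodge h) ?_
  have hkill : ∀ X ∈ cx (CB A), Sk (omC A) X → Kil X (bcm (Ω := ℂ) A.bas ψ) := by
    intro X hX hs
    have h3 := (kills_bcm_iff (b := A.bas) ψ X).2 fun lam => by
      have h4 := cmp_of_ext (CB A) hX lam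
      exact A.kills_of_mem hψ (hS _ h4 (cmp_skew hs lam))
    exact h3
  have h3 := fft hPI hBAS hQF hBRG (planar ht h hS hP hl) (ι := Fin m × Fin 2) (m := m)
    (by simp [mul_comm]) (bcm (Ω := ℂ) A.bas ψ) hkill
  refine Pool.Agent.N441.LCDESC.main A.H1 _ A.bas (Fin m × Fin 2) m (QE A) ψ
    (Submodule.span_mono ?_ h3)
  rintro ψ ⟨ε, c, hc, hψ⟩
  refine ⟨ε, c, fun i => ?_, hψ⟩
  obtain ⟨Q, hQ, hQ'⟩ := hc i
  exact mem_QE hQ _ hQ'

end Fin

end Pool.Agent.Run7.h358.PL
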