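import Pool.Agent.Run7.h358.PL.Asm
import Pool.Agent.Run7.h145.PL.SL2
import Pool.Agent.Run7.h957.PL.REP
import Pool.Agent.Run7.h957.PL.LIN
import Pool.Agent.Run7.h286.PL2.EQV
import Pool.Agent.Run7.h862.PL.WORD
import Pool.Agent.Run7.h862.PL.PI
import Pool.Agent.Run7.h862.PL.BRG
import Pool.Agent.Run7.h116.PL.QF
import Pool.Agent.Run7.h116.PL.BAS3

set_option autoImplicit false

/-!
# Stably nondegenerate abelian varieties of type `A_1`: the parts together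

The parts are due to helper116 (`BAS`, `QF`), helper145 (`SL2`), helper286 (`EQV`), helper862 (`WORD`, `PI`,
`BRG`) and helper957 (`REP`, `LIN`).
-/

open Module Matrix TensorProduct

noncomputable section

namespace Pool.Agent.Run7.h358.PL

open Pool.Agent.Y102 Pool.Agent.W516.DR Pool.Agent.H204R3.GP Pool.Agent.N208.BT

/-- **de Rham-Betti classes of all degrees**. -/
theorem fin {g g' : ℕ} {A : AbVar g} {C : AbVar g'} {f : A.H1 →ₗ[ℚ] C.H1} {p : C.H1 →ₗ[ℚ] A.H1}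
    {n : ℕ} {φ : Fin n → TA.S →ₗ[ℂ] A1.MC (2 * g')}
    (ht : A1.TypeA0 φ (A1.QM C.NA)) (h : R917.DT.Fac A C f p) (hS : HS A) (hP : HP A)
    (hl : ∀ T ∈ A.LA, ∃ Y ∈ C.NA, ∀ v, p (Y (f v)) = T v) {m : ℕ}
    {ψ : MultilinearMap ℚ (fun _ : Fin m × Fin 2 => A.H1) ℚ}
    (hψ : IsDeRhamBettiForm QBar A.dR tau m ψ) :
    ψ ∈ Submodule.span ℚ {ψ | IsProductOfHodgeBilinear (A.per : A.H1 →+ (Fin g → ℂ)) ψ} :=
  fin_all h862.PL.PI.main h116.PL.BAS.main h116.PL.QF.main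
    (h862.PL.BRG.main (h862.PL.WORD.main h145.PL.SL2.main h957.PL.REP.main h957.PL.LIN.main
      h286.PL2.EQV.main)) ht h hS hP hl hψ

end Pool.Agent.Run7.h358.PL
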