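import Pool.Agent.N208.LC.Stm

set_option autoImplicit false

/-!
# Interface: all Hodge classes on powers of stably nondegenerate abelian varieties of type `A_1`

First fundamental theorem for a product of groups `SL_2` and of a torus (all skew elements of an
algebra all of whose irreducible representations have dimension at most two).

Pieces (each a closed `Prop` with its proof in the doc comment):
`S_SL2`, `S_REP`, `S_LIN`, `S_EQV`, `S_WORD`, `S_PI`, `S_BAS`, `S_QF`, `S_BRG`.
The proof of the piece `XXX` is `theorem main : S_XXX` in a file `Pool/Agent/Run7/<you>/PL/XXX.lean`, in the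
namespace `Pool.Agent.Run7.<you>.PL.XXX`; the piece `WORD` is
`theorem main : S_SL2 → S_REP → S_LIN → S_EQV → S_WORD`, and the piece `BRG` is `theorem main : S_WORD → S_BRG`.
-/

open Module

noncomputable section

namespace Pool.Agent.Run7.h358.PL

/-! ### Words -/

/-- The determinant of two basis vectors of the plane. -/
def ep (a b : Fin 2) : ℂ := if a = b then 0 else if a = 0 then 1 else -1

section Lists

variable {ι : Type}

/-- The product of the determinants for the pairs of a list. -/
def prL (l : List (ι × ι)) (a : ι → Fin 2) : ℂ := (l.map fun p => ep (a p.1) (a p.2)).prod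

/-- All indices which occur in the pairs of a list. -/
def supp (l : List (ι × ι)) : List ι := l.flatMap fun p => [p.1, p.2]

/-- The list `l` of pairs is a perfect matching of the finite set `S`. -/
def IsMat (S : Finset ι) (l : List (ι × ι)) : Prop := (supp l).Nodup ∧ ∀ k, k ∈ supp l ↔ k ∈ S

end Lists

/-- **SL2.** The first fundamental theorem for products of `SL_2`, for functions of words. The function
`f` depends on the letters with indices in `S` only, it is balanced at each place, and it is annihilated
by the raising and lowering operators of each place.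

*Proof.* Strong induction on the number of elements of `S`. If `S` is empty, then `f` is constant, so it is
`f (a₀) • prL []`. Let `k ∈ S`, `y = pl k`, `s = #{l ∈ S | pl l = y}`. For `l ∈ S`, `l ≠ k`, `pl l = y` put
`ct l a = f (a[k:=0][l:=1]) - f (a[k:=1][l:=0])`. *Claim:* for all words `a`

  `((s + 2) / 2) f a = ∑_{l ∈ S, l ≠ k, pl l = y} ep (a k) (a l) * ct l a`.     (*)

Indeed `ep (a k) (a l) * ct l a = f a - f (a ∘ swap k l)` in all cases (look at `a k`, `a l`; use
`a = a[k:=a k][l:=a l]`). So the right side is `(s - 1) f a - ∑_l f (a ∘ swap k l)`. If `a l = a k` then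
`a ∘ swap k l = a`; the number of these `l` times `f a` is `(s / 2 - 1) f a`: it is trivial if `f a = 0`, and
otherwise `f` is balanced at `y`, so `s` is even and `a l = a k` for exactly `s / 2` elements `l ∈ S`,
`pl l = y`, one of which is `k`. If `a l ≠ a k`, let `q = a k`, `p = a l = 1 - q` and
`a' = a[k:=p]`; then `a ∘ swap k l = a'[l:=q]`, and the sum of `f (a'[l:=q])` over all `l ∈ S` with
`pl l = y`, `a' l = p` is zero by the hypothesis `mov`; the term `l = k` of this sum is `f (a'[k:=q]) = f a`. So
the sum of `f (a ∘ swap k l)` over the `l` with `a l ≠ a k` is `- f a`. Together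
`(s - 1) - (s / 2 - 1) + 1 = (s + 2) / 2`, which proves (*).

Now `ct l` satisfies the hypotheses for `S \ {k, l}`: it does not depend on the letters at `k`, `l`; it is
balanced since one of `a[k:=0][l:=1]`, `a[k:=1][l:=0]` is (for `f`), and the letters at `k`, `l` are one `0` and
one `1`, both of place `y`; for `mov` (place `y'`, `p ≠ q`) apply the hypothesis for `f` to the words
`a[k:=0][l:=1]` and `a[k:=1][l:=0]` and subtract: if `y' ≠ y` the terms are those of `ct l`; if `y' = y` there
is in addition in each of the two sums exactly one term with index `k` or `l`, and it is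
`f (a[k:=q][l:=q])` in both cases, so they cancel (updates at different indices commute). By induction `ct l`
is in the span of the `prL l'` for the matchings `l'` of `S \ {k, l}`, and
`ep (a k) (a l) * prL l' a = prL ((k, l) :: l') a`. If there is no such `l` then (*) says `f = 0`.
(`(s + 2) / 2 ≠ 0`.) -/
def S_SL2 : Prop := ∀ (ι : Type) [Fintype ι] [DecidableEq ι] (Y : Type) [DecidableEq Y]
  (pl : ι → Y) (S : Finset ι) (f : (ι → Fin 2) → ℂ),
  (∀ a a' : ι → Fin 2, (∀ k ∈ S, a k = a' k) → f a = f a') →
  (∀ a, f a ≠ 0 → ∀ y, (S.filter fun k => a k = 0 ∧ pl k = y).card =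
    (S.filter fun k => a k = 1 ∧ pl k = y).card) →
  (∀ (y : Y) (p q : Fin 2), p ≠ q → ∀ a : ι → Fin 2,
    ∑ k ∈ S.filter (fun k => a k = p ∧ pl k = y), f (Function.update a k q) = 0) →
  f ∈ Submodule.span ℂ {G : (ι → Fin 2) → ℂ |
    ∃ l : List (ι × ι), IsMat S l ∧ (∀ p ∈ l, pl p.1 = pl p.2) ∧ G = prL l}

/-- **REP.** Re-pairing. The indices have colours `c k ∈ X`, and `bar` is an involution of `X`. In a
matching of `S` all pairs are of the form `(x, x)` or `(x, bar x)`, and the number of the indices of
the colour `x` is the number of the indices of the colour `bar x`. Then the product is a combination of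
products for matchings with all pairs of the form `(x, bar x)`.

*Proof.* Strong induction on the number of bad pairs `p ∈ l` (`c p.2 ≠ bar (c p.1)`). If there is no bad pair
we are done. Let `p = (k, k')` be a bad pair: `c k = c k' = x ≠ bar x`. Then there is a pair `p' = (m, m')` in `l`
with `c m = c m' = bar x`: otherwise all pairs in which the colour `x` or `bar x` occurs are
`(x, x)`, `(x, bar x)` or `(bar x, x)`, and since `p` is of the first kind the number of the
indices in `S` of the colour `x` would be larger than that of the colour `bar x` (count over the list). Up to a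
permutation `l = p :: p' :: l₀` (`prL` and `IsMat` are invariant under permutations of the list). Since
`ep k k' * ep m m' = ep k m * ep k' m' - ep k m' * ep k' m` (check the 16 cases), the product is
`prL ((k, m) :: (k', m') :: l₀) - prL ((k, m') :: (k', m) :: l₀)`, and these two lists are matchings of `S` with
two bad pairs less. -/
def S_REP : Prop := ∀ (ι X : Type) [Fintype ι] [DecidableEq ι] [DecidableEq X] (bar : X → X)
  (c : ι → X) (S : Finset ι) (l : List (ι × ι)), (∀ x, bar (bar x) = x) → IsMat S l →
  (∀ p ∈ l, c p.2 = c p.1 ∨ c p.2 = bar (c p.1)) →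
  (∀ x, (S.filter fun k => c k = x).card = (S.filter fun k => c k = bar x).card) →
  (prL l : (ι → Fin 2) → ℂ) ∈ Submodule.span ℂ {G : (ι → Fin 2) → ℂ |
    ∃ l' : List (ι × ι), IsMat S l' ∧ (∀ p ∈ l', c p.2 = bar (c p.1)) ∧ G = prL l'}

/-- **LIN.** If `bar` has no fixed points in `c (S)` and the colours are balanced, there is a matching of
`S` by pairs of the form `(x, bar x)`.

*Proof.* Induction on the number of elements of `S`. Let `k ∈ S`, `x = c k`. As the number of elements of `S` of
the colour `bar x` is that of the colour `x`, there is `k' ∈ S` with `c k' = bar x ≠ x`, so `k' ≠ k`. The set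
`S \ {k, k'}` satisfies the hypotheses (the counts for the colours `x` and `bar x` decrease by one, the
others do not change). Add the pair `(k, k')`. -/
def S_LIN : Prop := ∀ (ι X : Type) [Fintype ι] [DecidableEq ι] [DecidableEq X] (bar : X → X)
  (c : ι → X) (S : Finset ι), (∀ x, bar (bar x) = x) → (∀ k ∈ S, bar (c k) ≠ c k) →
  (∀ x, (S.filter fun k => c k = x).card = (S.filter fun k => c k = bar x).card) →
  ∃ l : List (ι × ι), IsMat S l ∧ ∀ p ∈ l, c p.2 = bar (c p.1)

/-- **EQV.** A perfect matching of the set of all `2 m` indices, as a list, has length `m` and gives an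
equivalence.

*Proof.* `supp l` has length `2 * l.length`, it has no duplicates and contains all elements, so
`2 * l.length = card ι = 2 m`. The map `(i, 0) ↦ (l.get i).1`, `(i, 1) ↦ (l.get i).2` is injective, since
`supp l` has no duplicates (for instance the element with the index `2 i + j` of `supp l` is the image of
`(i, j)`; or use `List.nodup_flatMap`), and so bijective. -/
def S_EQV : Prop := ∀ (ι : Type) [Fintype ι] [DecidableEq ι] (m : ℕ) (l : List (ι × ι)),
  Fintype.card ι = 2 * m → IsMat (Finset.univ : Finset ι) l →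
  ∃ (h : l.length = m) (e : Fin m × Fin 2 ≃ ι),
    ∀ i : Fin m, e (i, 0) = (l.get (i.cast h.symm)).1 ∧ e (i, 1) = (l.get (i.cast h.symm)).2

/-- The letters: a position and a plane, or a line. -/
abbrev Lt (T U : Type) : Type := (Fin 2 × T) ⊕ U

section Words

variable {ι X T U : Type} [Fintype ι] [DecidableEq ι] [DecidableEq X] [DecidableEq T] [DecidableEq U]

/-- Change of the position of a letter. -/
def mv (q : Fin 2) : Lt T U → Lt T U := Sum.map (fun y => (q, y.2)) id

/-- The letter is a plane of the colour `x` or `bar x`, with the position `p`. -/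
def AtT (bar : X → X) (cT : T → X) (p : Fin 2) (x : X) : Lt T U → Prop
  | Sum.inl y => y.1 = p ∧ (cT y.2 = x ∨ cT y.2 = bar x)
  | Sum.inr _ => False

instance (bar : X → X) (cT : T → X) (p : Fin 2) (x : X) :
    DecidablePred (AtT (U := U) bar cT p x) := fun y => by
  cases y <;> unfold AtT <;> infer_instance

/-- The letter is a plane of the colour `x`. -/
def ColT (cT : T → X) (x : X) : Lt T U → Prop
  | Sum.inl y => cT y.2 = x
  | Sum.inr _ => False

instance (cT : T → X) (x : X) : DecidablePred (ColT (U := U) cT x) := fun y => by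
  cases y <;> unfold ColT <;> infer_instance

/-- The letter is a line of the colour `x`. -/
def ColU (cU : U → X) (x : X) : Lt T U → Prop
  | Sum.inl _ => False
  | Sum.inr u => cU u = x

instance (cU : U → X) (x : X) : DecidablePred (ColU (T := T) cU x) := fun y => by
  cases y <;> unfold ColU <;> infer_instance

/-- The contractions. -/
def dlT (t t' : T) : Lt T U → Lt T U → ℂ
  | Sum.inl y, Sum.inl y' => if y.2 = t ∧ y'.2 = t' then ep y.1 y'.1 else 0
  | _, _ => 0

/-- The contractions of lines. -/
def dlU (u u' : U) : Lt T U → Lt T U → ℂ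
  | Sum.inr v, Sum.inr v' => if v = u ∧ v' = u' then 1 else 0
  | _, _ => 0

/-- The admissible contractions. -/
def IsDl (bar : X → X) (cT : T → X) (cU : U → X) (δ : Lt T U → Lt T U → ℂ) : Prop :=
  (∃ t t', cT t' = bar (cT t) ∧ δ = dlT t t') ∨ ∃ u u', cU u' = bar (cU u) ∧ δ = dlU u u'

/-- Invariant functions of words. -/
structure InvW (bar : X → X) (cT : T → X) (cU : U → X) (F : (ι → Lt T U) → ℂ) : Prop where
  colT : ∀ I, F I ≠ 0 → ∀ x, (Finset.univ.filter fun k => ColT cT x (I k)).card =
    (Finset.univ.filter fun k => ColT cT (bar x) (I k)).card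
  colU : ∀ I, F I ≠ 0 → ∀ x, (Finset.univ.filter fun k => ColU cU x (I k)).card =
    (Finset.univ.filter fun k => ColU cU (bar x) (I k)).card
  pos : ∀ I, F I ≠ 0 → ∀ x, (Finset.univ.filter fun k => AtT bar cT 0 x (I k)).card =
    (Finset.univ.filter fun k => AtT bar cT 1 x (I k)).card
  mov : ∀ (x : X) (p q : Fin 2), p ≠ q → ∀ I,
    ∑ k ∈ Finset.univ.filter (fun k => AtT bar cT p x (I k)),
      F (Function.update I k (mv q (I k))) = 0

end Words

/-- **WORD.** The invariant functions of words are combinations of products of contractions.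

*Proof* (from `S_SL2`, `S_REP`, `S_LIN`, `S_EQV`). For a word `I` let `τ I : ι → T ⊕ U` be its type, and
for a type `τ` and positions `a : ι → Fin 2` let `w τ a` be the word with the letters `inl (a k, t)`
(`τ k = inl t`) and `inr u` (`τ k = inr u`). Then `F I = ∑_τ [τ I = τ] F (w τ (a I))`, where `a I` are the
positions in `I` (`0` for lines). Fix `τ`, let `S` be the set of the `k` with `τ k ∈ T` and `f a = F (w τ a)`. If
`f = 0` there is nothing to prove. Otherwise the hypotheses `colT`, `colU` for one word `w τ a` with `f a ≠ 0`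
say that the colours of the planes, and of the lines, of `τ` are balanced. `f` satisfies the hypotheses of
`S_SL2` for `S` and the places `pl k = s(c k, bar (c k)) ∈ Sym2 X`, where `c k = cT t` for `τ k = inl t`
(`pl k` arbitrary for lines, for instance `pl : ι → Option (Sym2 X)`): for the places `s(x, bar x)` these are
`pos` and `mov` of `F`; at other values `y` the sets are empty. So `f` is a combination of products `prL l` for
matchings `l` of `S` with `s(c k, bar (c k)) = s(c k', bar (c k'))`, so `c k' = c k` or `c k' = bar (c k)`, and by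
`S_REP` of those with `c k' = bar (c k)` for all pairs. By `S_LIN` there is a matching `l₁` of the complement of
`S` with `cU u' = bar (cU u)` for all pairs. The list `l ++ l₁` is a matching of the set of all indices; by `S_EQV`
it gives `e`, and with `d i = dlT t t'` or `dlU u u'` (the types of the two indices in `τ`) the product of the
`d i` at the word `I` is zero if `τ I ≠ τ`, and `prL l (a I)` if `τ I = τ`. -/
def S_WORD : Prop := ∀ (ι X T U : Type) [Fintype ι] [DecidableEq ι] [DecidableEq X] [Fintype T]
  [DecidableEq T] [Fintype U] [DecidableEq U] (m : ℕ) (bar : X → X) (cT : T → X) (cU : U → X),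
  Fintype.card ι = 2 * m → (∀ x, bar (bar x) = x) → (∀ u, bar (cU u) ≠ cU u) →
  ∀ F : (ι → Lt T U) → ℂ, InvW bar cT cU F →
  F ∈ Submodule.span ℂ {G : (ι → Lt T U) → ℂ | ∃ (e : Fin m × Fin 2 ≃ ι)
    (d : Fin m → Lt T U → Lt T U → ℂ), (∀ i, IsDl bar cT cU (d i)) ∧
    ∀ I, G I = ∏ i, d i (I (e (i, 0))) (I (e (i, 1)))}

/-! ### Algebras of operators -/

section Ops

variable {V : Type} [AddCommGroup V] [Module ℂ V] (ω : V →ₗ[ℂ] V →ₗ[ℂ] ℂ)

/-- Skew operators. -/
def Sk (X : Module.End ℂ V) : Prop := ∀ u v, ω (X u) v + ω u (X v) = 0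

/-- Two algebras of operators on a symplectic space which are the commutants of each other; `B` acts
semisimply and is stable under adjoints. -/
structure Alg0 (E B : Submodule ℂ (Module.End ℂ V)) : Prop where
  commB : ∀ X, X ∈ B ↔ ∀ Q ∈ E, X * Q = Q * X
  commE : ∀ Q, Q ∈ E ↔ ∀ X ∈ B, X * Q = Q * X
  semi : ∀ U : Submodule ℂ V, (∀ X ∈ B, ∀ u ∈ U, X u ∈ U) →
    ∃ U' : Submodule ℂ V, (∀ X ∈ B, ∀ u ∈ U', X u ∈ U') ∧ IsCompl U U'
  alt : ∀ u v, ω u v = -ω v u
  nondeg : ∀ u, (∀ v, ω u v = 0) → u = 0
  adjB : ∀ X ∈ B, ∃ X' ∈ B, ∀ u v, ω (X u) v = ω u (X' v)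

/-- The skew elements of `B` have the commutant `E`, they annihilate no vector, and they are sums
of an element of `E` and of elements of orthogonal Lie algebras `φ i (sl(2))`. -/
structure Planar (E B : Submodule ℂ (Module.End ℂ V)) {n : ℕ}
    (φ : Fin n → Matrix (Fin 2) (Fin 2) ℂ →ₗ[ℂ] Module.End ℂ V) : Prop where
  alg : Alg0 ω E B
  com : ∀ Q, (∀ X ∈ B, Sk ω X → X * Q = Q * X) → Q ∈ E
  inv : ∀ v, (∀ X ∈ B, Sk ω X → X v = 0) → v = 0
  mul : ∀ i a b, φ i (a * b) = φ i a * φ i b
  orth : ∀ i k, i ≠ k → ∀ a b, φ i a * φ k b = 0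
  sl : ∀ i x, x.trace = 0 → φ i x ∈ B ∧ Sk ω (φ i x)
  gen : ∀ X ∈ B, Sk ω X → ∃ x : Fin n → Matrix (Fin 2) (Fin 2) ℂ, (∀ i, (x i).trace = 0) ∧
    X - ∑ i, φ i (x i) ∈ E

/-- A decomposition of the unit of the centre in primitive idempotents. -/
structure Idem (E B : Submodule ℂ (Module.End ℂ V)) {X : Type} [Fintype X] [DecidableEq X]
    (bar : X → X) (π : X → Module.End ℂ V) (χ : X → Module.End ℂ V → ℂ) : Prop where
  bar_bar : ∀ x, bar (bar x) = x
  memB : ∀ x, π x ∈ B
  memE : ∀ x, π x ∈ E
  ne : ∀ x, π x ≠ 0
  mul : ∀ x y, π x * π y = if x = y then π x else 0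
  sum : ∑ x, π x = 1
  adj : ∀ x u v, ω (π x u) v = ω u (π (bar x) v)
  scal : ∀ z ∈ B, z ∈ E → ∀ x, z * π x = χ x z • π x

end Ops

/-- **PI.** The primitive idempotents of the centre `Z = B ∩ E`.

*Proof.* `B` and `E` are commutants (`commB`, `commE`), so they contain `1` and are closed under products, and
`Z` is a commutative subalgebra of `End V`; let `R` be the corresponding `Subalgebra ℂ (End V)`, a
commutative finite dimensional algebra. It is reduced: let `z ∈ Z`, `z ^ 2 = 0`. The subspace `U = ker z` is
`B`-stable; let `U'` be a `B`-stable complement. For `u ∈ U'` we have `z u ∈ U'` (`z ∈ B`) and `z u ∈ U`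
(`z ^ 2 = 0`), so `z u = 0` and `u ∈ U ∩ U' = 0`; so `U' = 0` and `z = 0`. So `R` is a finite product of
fields (`IsArtinianRing.equivPi`, index set `MaximalSpectrum R`) which are finite over `ℂ`, so equal to `ℂ`.
(Alternative: joint eigenspaces of a basis of `Z`, `Mathlib/LinearAlgebra/Eigenspace/Pi.lean`.) Let `π x` be
the idempotents; `z π x = χ x z • π x`. The adjoint `z ↦ z'` (`adjB`; it is unique by `nondeg`) maps `Z` to
`Z`: for `Q ∈ E` the adjoint `Q'` of `Q` is in `E` (for `X ∈ B` with adjoint `X' ∈ B`, and `X'' = X`, take adjoints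
of `X' Q = Q X'`; an adjoint `Q'` exists by `nondeg` in finite dimension), so it commutes with `z ∈ B ∩ E`
and `z'` commutes with `Q = Q''`; and `z'` is in `B`, and commutes with `B` as `z` does. So `'` is an
automorphism of the commutative algebra `R` with square the identity (`alt`), it permutes the primitive
idempotents, and this is `bar`. -/
def S_PI : Prop := ∀ (V : Type) [AddCommGroup V] [Module ℂ V] [FiniteDimensional ℂ V]
  (ω : V →ₗ[ℂ] V →ₗ[ℂ] ℂ) (E B : Submodule ℂ (Module.End ℂ V)), Alg0 ω E B →
  ∃ (X : Type) (_ : Fintype X) (_ : DecidableEq X) (bar : X → X) (π : X → Module.End ℂ V)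
    (χ : X → Module.End ℂ V → ℂ), Idem ω E B bar π χ

section Basis

variable {V X T U : Type} [AddCommGroup V] [Module ℂ V] [DecidableEq X]

/-- The operator of the matrix `m` on the planes of the colours `x`, `bar x`. -/
def opM (e : Basis (Lt T U) ℂ V) (bar : X → X) (cT : T → X) (x : X)
    (m : Matrix (Fin 2) (Fin 2) ℂ) : Module.End ℂ V :=
  e.constr ℂ fun y => match y with
    | Sum.inl (p, t) => if cT t = x ∨ cT t = bar x then ∑ q, m q p • e (Sum.inl (q, t)) else 0
    | Sum.inr _ => 0

/-- The operator `1` on the planes of the colour `x`, and `-1` on those of the colour `bar x`. -/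
def opT (e : Basis (Lt T U) ℂ V) (bar : X → X) (cT : T → X) (x : X) : Module.End ℂ V :=
  e.constr ℂ fun y => match y with
    | Sum.inl (p, t) => ((if cT t = x then (1 : ℂ) else 0) - if cT t = bar x then 1 else 0) •
        e (Sum.inl (p, t))
    | Sum.inr _ => 0

/-- The operator `1` on the lines of the colour `x`, and `-1` on those of the colour `bar x`. -/
def opU (e : Basis (Lt T U) ℂ V) (bar : X → X) (cU : U → X) (x : X) : Module.End ℂ V :=
  e.constr ℂ fun y => match y with
    | Sum.inl _ => 0
    | Sum.inr u => ((if cU u = x then (1 : ℂ) else 0) - if cU u = bar x then 1 else 0) •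
        e (Sum.inr u)

/-- A basis of `V` adapted to `φ` and to the idempotents. -/
structure Adapted (ω : V →ₗ[ℂ] V →ₗ[ℂ] ℂ) (B : Submodule ℂ (Module.End ℂ V)) {n : ℕ}
    (φ : Fin n → Matrix (Fin 2) (Fin 2) ℂ →ₗ[ℂ] Module.End ℂ V) (bar : X → X)
    (π : X → Module.End ℂ V) (cT : T → X) (cU : U → X) (e : Basis (Lt T U) ℂ V) : Prop where
  /-- the basis vectors are in the images of the idempotents -/
  piT : ∀ p t, π (cT t) (e (Sum.inl (p, t))) = e (Sum.inl (p, t))
  piU : ∀ u, π (cU u) (e (Sum.inr u)) = e (Sum.inr u)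
  /-- one of the `φ i` acts on a plane by matrices, the others by zero; the same `i` for the
  colours `x`, `bar x` -/
  phiT : ∀ t, ∃ i, (∀ a p t', (cT t' = cT t ∨ cT t' = bar (cT t)) →
      φ i a (e (Sum.inl (p, t'))) = ∑ q, a q p • e (Sum.inl (q, t'))) ∧
    ∀ k, k ≠ i → ∀ a p t', (cT t' = cT t ∨ cT t' = bar (cT t)) → φ k a (e (Sum.inl (p, t'))) = 0
  phiU : ∀ i a u, φ i a (e (Sum.inr u)) = 0
  nofix : ∀ u, bar (cU u) ≠ cU u
  skM : ∀ x m, m.trace = 0 → opM e bar cT x m ∈ B ∧ Sk ω (opM e bar cT x m)
  skT : ∀ x, opT e bar cT x ∈ B ∧ Sk ω (opT e bar cT x)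
  skU : ∀ x, opU e bar cU x ∈ B ∧ Sk ω (opU e bar cU x)

end Basis

/-- **BAS.** The adapted basis.

*Proof.* `B`, `E` are closed under products and contain `1` (commutants). (1) `φ i 1 = (φ i H) ^ 2` with
`H = diag (1, -1)` of trace zero, so `φ i 1 ∈ B`, and every `φ i a` is in `B` (sum of a matrix of trace zero and of
a scalar). `c_i = φ i 1` commutes with all skew elements of `B`: by `gen` such an `X` is `z + ∑ φ k (x k)` with
`z ∈ E`, `z` commutes with `φ i 1 ∈ B`, and `φ k (x k)` commutes with `φ i 1` by `mul`, `orth`. So `c_i ∈ E` by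
`com`, so `c_i π x = χ x c_i • π x`, and `χ x c_i` is `0` or `1` as `c_i` is idempotent and `π x ≠ 0`. By `orth`,
for each `x` it is `1` for at most one `i = i (x)` (then `x` is called planar). The adjoint of `c_i` is `c_i` (the
square of a skew operator), so `χ (bar x) c_i = χ x c_i` (take adjoints of `c_i π x = χ x c_i • π x`, `adj`), and
`i (bar x) = i (x)`.

(2) For planar `x` with `i = i (x)` let `M x` be the image of `φ i E₀₀ * π x`, and choose a basis `b_(x, j)` of it;
`T` is the set of the pairs `t = (x, j)`, `cT t = x`, and `e (inl (p, t)) = φ i E_(p 0) b_(x, j)`, where `E_(p q)`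
are the matrix units. For the other `x` choose a basis of the image of `π x`; `U` is the set of the pairs
`u = (x, j)`, `cU u = x`, `e (inr u)` the basis vector. These vectors span `V`: `v = ∑ π x v`, and for planar `x`
`π x v = c_i π x v = ∑_p φ i E_(p p) (π x v) = ∑_p φ i E_(p 0) (φ i E_(0 p) π x v)` with
`φ i E_(0 p) π x v ∈ M x`. (`π x` is in `E`, so it commutes with `φ i a ∈ B`.) They are linearly
independent: apply `φ i E_(0 p) * π x` (`π x` for the lines) to a relation; this gives a relation
between the `b_(x, j)`.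

(3) `piT`, `piU`: clear. `phiT`: `i = i (cT t)`; for `x' = cT t' ∈ {x, bar x}` also `i (x') = i`, and
`φ i a (φ i E_(p 0) b) = φ i (a E_(p 0)) b = ∑_q a q p φ i E_(q 0) b`; for `k ≠ i` use `orth`. `phiU`: for `x` not
planar `φ i a π x = φ i a c_i π x = 0`. `nofix`: if `bar x = x` and `x` is not planar, then a skew `X ∈ B` is
`z + ∑ φ k (x k)`, with `z ∈ B ∩ E` skew (difference of skew elements), so `X π x = z π x = χ x z • π x`, and
`χ (bar x) z = - χ x z` (take adjoints of `z π x = χ x z • π x`), so `X π x = 0`; by `inv` `π x = 0`, which is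
false. `skM`: `opM e bar cT x m = φ i m * (π x + π (bar x))`, `i = i (x)`, if `x` is planar and `bar x ≠ x`
(compare on the basis); it is `φ i m * π x` if `bar x = x`, and `0` if `x` is not planar (then `bar x` is not
planar, and there is no such `t`). These are in `B`, and skew, because `φ i m` is skew and commutes with
`π x + π (bar x)`, which is its own adjoint. `skT`: it is `π x - π (bar x)` if `x` is planar, and `0` otherwise;
`skU`: it is `π x - π (bar x)` if `x` is not planar, and `0` otherwise. -/
def S_BAS : Prop := ∀ (V : Type) [AddCommGroup V] [Module ℂ V] [FiniteDimensional ℂ V]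
  (ω : V →ₗ[ℂ] V →ₗ[ℂ] ℂ) (E B : Submodule ℂ (Module.End ℂ V)) (n : ℕ)
  (φ : Fin n → Matrix (Fin 2) (Fin 2) ℂ →ₗ[ℂ] Module.End ℂ V), Planar ω E B φ →
  ∀ (X : Type) [Fintype X] [DecidableEq X] (bar : X → X) (π : X → Module.End ℂ V)
    (χ : X → Module.End ℂ V → ℂ), Idem ω E B bar π χ →
  ∃ (T U : Type) (_ : Fintype T) (_ : DecidableEq T) (_ : Fintype U) (_ : DecidableEq U)
    (cT : T → X) (cU : U → X) (e : Basis (Lt T U) ℂ V), Adapted ω B φ bar π cT cU e

/-- **QF.** The contractions are given by elements of `E`.

*Proof.* First, `ω` is nondegenerate and `V` is of finite dimension, so there is an operator `Q` with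
`β u v = ω u (Q v)` for all `u`, `v`. It is enough that `β (Y u) v + β u (Y v) = 0` for all skew `Y ∈ B`: then
`ω u (Q (Y v)) = β u (Y v) = - β (Y u) v = - ω (Y u) (Q v) = ω u (Y (Q v))`, so `Q` commutes with `Y`, and
`Q ∈ E` by `com`. By bilinearity take `u = e y`, `v = e y'` basis vectors. By `gen` `Y = z + ∑ φ k (x k)` with
`z ∈ E`, and `z ∈ B`, `z` is skew. So `z e(y) = χ c z • e(y)` for the colour `c` of `y` (`scal`, `piT`, `piU`), and
`χ (bar c) z = - χ c z` (take adjoints of `z * π c = χ c z • π c`, with `adj`; `π c ≠ 0`). Let `δ = dlT t t'`,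
`cT t' = bar (cT t)`: if `y` is not `inl (p, t)` then `e y`, and `Y (e y)`, which is a combination of basis vectors
`e` of the same `T`-type (or the same line), are in the left kernel of `β`; the same for `y'`, so assume
`y = inl (p, t)`, `y' = inl (p', t')`. Then `Y` acts on `e y` by the scalar `χ c z` plus the matrix `a = x i` of
trace zero, and on `e y'` by `- χ c z` plus the same matrix `a` (`phiT` for `t`), and
`∑_q a q p ep q p' + ∑_q a q p' ep p q = (trace a) ep p p' = 0` (check the four cases). For `δ = dlU u u'` the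
operator `Y` acts on `e (inr u)` by `χ c z` and on `e (inr u')` by `- χ c z` (`phiU`). -/
def S_QF : Prop := ∀ (V : Type) [AddCommGroup V] [Module ℂ V] [FiniteDimensional ℂ V]
  (ω : V →ₗ[ℂ] V →ₗ[ℂ] ℂ) (E B : Submodule ℂ (Module.End ℂ V)) (n : ℕ)
  (φ : Fin n → Matrix (Fin 2) (Fin 2) ℂ →ₗ[ℂ] Module.End ℂ V), Planar ω E B φ →
  ∀ (X : Type) [Fintype X] [DecidableEq X] (bar : X → X) (π : X → Module.End ℂ V)
    (χ : X → Module.End ℂ V → ℂ), Idem ω E B bar π χ →
  ∀ (T U : Type) [Fintype T] [DecidableEq T] [Fintype U] [DecidableEq U] (cT : T → X) (cU : U → X)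
    (e : Basis (Lt T U) ℂ V), Adapted ω B φ bar π cT cU e →
  ∀ (β : V →ₗ[ℂ] V →ₗ[ℂ] ℂ) (δ : Lt T U → Lt T U → ℂ), IsDl bar cT cU δ →
    (∀ y y', β (e y) (e y') = δ y y') → ∃ Q ∈ E, ∀ u v, β u v = ω u (Q v)

/-- **BRG.** From words to multilinear forms (`Kil`, `PrB` are defined in `Pool.Agent.N208.LC.Stm`).

*Proof.* Copy `Pool/Agent/N160/LCBRG.lean` (with the lemmas `Mp`, `Mp_apply`, `Psi`, `Psi_apply`, `upd` of
`Pool/Agent/N75/LCBR.lean`, which have to be copied for the index set `Lt T U`). `F I = ψ (fun k => e (I k))` is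
`InvW`: `colT` and `colU` follow from `Kil (opT ..)`, `Kil (opU ..)` (the operators are diagonal, and the
sum of the eigenvalues times `F I` is zero), `pos` from `Kil (opM .. (diag (1, -1)))`, `mov` (for `p ≠ q`) from
`Kil (opM .. m)` with `m` the matrix unit with `m q p = 1` (the operator maps `e (inl (p, t))` to `e (inl (q, t))`
for the `t` of the colours `x`, `bar x`, and the other basis vectors to zero). Apply `S_WORD`, and
return to multilinear forms: the form with the coefficients `∏ i, d i (I (ε (i, 0))) (I (ε (i, 1)))` is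
the product of the bilinear forms `β i` with `β i (e y) (e y') = d i y y'`. -/
def S_BRG : Prop := ∀ (V X T U ι : Type) [AddCommGroup V] [Module ℂ V] [DecidableEq X]
  [Fintype T] [DecidableEq T] [Fintype U] [DecidableEq U] [Fintype ι] [DecidableEq ι]
  (bar : X → X) (cT : T → X) (cU : U → X) (e : Basis (Lt T U) ℂ V) (m : ℕ),
  (∀ x, bar (bar x) = x) → (∀ u, bar (cU u) ≠ cU u) → Fintype.card ι = 2 * m →
  ∀ ψ : MultilinearMap ℂ (fun _ : ι => V) ℂ,
    (∀ x a, a.trace = 0 → N208.LC.Kil (opM e bar cT x a) ψ) →
    (∀ x, N208.LC.Kil (opT e bar cT x) ψ) → (∀ x, N208.LC.Kil (opU e bar cU x) ψ) →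
    ψ ∈ Submodule.span ℂ (N208.LC.PrB ι m {β | ∃ δ, IsDl bar cT cU δ ∧
      ∀ y y', β (e y) (e y') = δ y y'})

end Pool.Agent.Run7.h358.PL
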